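import Pool.Agent.N253.MS.Fin
import Pool.Agent.N896.MB.Law

/-!
# Superattracting parameters of every large exact period next to `c₀`
-/

set_option autoImplicit false

namespace Pool.Agent.N253.MS

open Complex Metric Set Filter Topology MeasureTheory Pool.Agent.H712R2 Pool.Agent.H713R2
open N62a1eb23 Polynomial Pool.Agent.R240 Pool.Agent.Y736.HG Pool.Agent.Y298.CA
open Pool.Agent.N896.MB

theorem ex_centre {d : ℕ} {χ : ℝ} {c₀ : ℂ} (hd : 2 ≤ d) (h : Lyap d χ c₀) {ε : ℝ} (hε0 : 0 < ε)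
    (hε2 : ε ≤ χ / 2) : ∀ᶠ n : ℕ in atTop, ∃ c : ℂ, Function.minimalPeriod (fc d c) 0 = n ∧
      ‖c - c₀‖ ≤ Real.exp (-((χ - ε) * n)) := by
  have hχ := h.1
  have hd1 : (1 : ℝ) < d := by exact_mod_cast (by omega : 1 < d)
  have hd0 : (0 : ℝ) < d := by linarith
  obtain ⟨κ, hκ⟩ : ∃ κ, κ = Real.log d / χ := ⟨_, rfl⟩
  have hL0 : 0 < Real.log d := Real.log_pos hd1
  have hκ0 : 0 < κ := by rw [hκ]; positivity
  have hκχ : κ * χ = Real.log d := by rw [hκ]; field_simp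
  have hδ : 0 < κ * ε / 2 := by positivity
  filter_upwards [eventually_ge_atTop 1, low_ex hd h hδ,
    Pool.Agent.N896.MB.ev_const 2 hδ] with n hn e1 e3
  have hx0 : (0 : ℝ) < n := by exact_mod_cast hn
  obtain ⟨r, hr⟩ : ∃ r, r = Real.exp (-((χ - ε) * n)) := ⟨_, rfl⟩
  have hr0 : 0 < r := by rw [hr]; exact Real.exp_pos _
  have hr1 : r ≤ 1 := by
    rw [hr, ← Real.exp_zero]
    apply Real.exp_le_exp.2
    have : 0 ≤ (χ - ε) * n := mul_nonneg (by linarith) hx0.le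
    linarith
  have h1 := e1 r hr0 hr1
  rw [← hκ] at h1
  have h2 : (d : ℝ) ^ n * r ^ κ = Real.exp (κ * ε * n) := by
    have : (d : ℝ) ^ n = Real.exp (κ * χ * n) := by
      rw [hκχ, mul_comm, Real.exp_nat_mul, Real.exp_log hd0]
    rw [this, hr, ← Real.exp_mul, ← Real.exp_add]
    congr 1
    ring
  rw [h2] at h1
  have h3 : Real.exp (κ * ε * n) = Real.exp (κ * ε / 2 * n) * Real.exp (κ * ε / 2 * n) := by
    rw [← Real.exp_add]; congr 1; ring
  rw [h3] at h1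
  have h4 := le_of_mul_le_mul_left h1 (Real.exp_pos _)
  have h5 : 0 < (Ex d n c₀ r).ncard := by
    have : (1 : ℝ) ≤ (Ex d n c₀ r).ncard := by linarith
    exact_mod_cast this
  obtain ⟨c, hc1, hc2⟩ := (Set.nonempty_of_ncard_ne_zero h5.ne')
  rw [mem_ball, dist_eq_norm, hr] at hc1
  exact ⟨c, hc2, hc1.le⟩

end Pool.Agent.N253.MS
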