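import Pool.Agent.N253.MS.Per

/-!
# The size of the hyperbolic components of period `n` near a parameter with a Lyapunov exponent:
both bounds
-/

set_option autoImplicit false

open Set Filter Metric MeasureTheory Topology

namespace Pool.Agent.N253.MS

open Pool.Agent.TH279.MD Pool.Agent.Y298.SH Pool.Agent.Y298.SH.CD Pool.Agent.Y298.CA
open Pool.Agent.H712R2 (P)

/-- a parameter with a positive Lyapunov exponent is not superattracting -/
theorem ne_of_lyap {d : ℕ} (hd : 2 ≤ d) {χ : ℝ} {c₀ : ℂ} (h : Lyap d χ c₀) {n : ℕ} (hn : 1 ≤ n)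
    {c' : ℂ} (hP : P d n c' = 0) : c' ≠ c₀ := by
  rintro rfl
  obtain ⟨⟨C₁, lam, hc⟩, -⟩ := Pool.Agent.Y674.CA.lya d χ c' hd h
  obtain ⟨k, rfl⟩ : ∃ k, n = k + 1 := ⟨n - 1, by omega⟩
  rw [P_succ_eq hd] at hP
  exact hc.zz_ne k hP

/-- **Holomorphic discs of parameters of the Multibrot set**, power bound with all exponents less
than `d / (d - 1)`. -/
theorem speed {d : ℕ} (hd : 2 ≤ d) {χ : ℝ} {c₀ : ℂ} (h : Lyap d χ c₀) {σ : ℝ} (hσ0 : 0 ≤ σ)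
    (hσ : σ < (d : ℝ) / ((d : ℝ) - 1)) : ∃ C : ℝ, 0 < C ∧
    ∀ c ∈ N62a1eb23.multibrotSet d, c ≠ c₀ → ∀ γ : ℂ → ℂ, DifferentiableOn ℂ γ (ball 0 1) →
      (∀ t ∈ ball (0 : ℂ) 1, γ t ∈ N62a1eb23.multibrotSet d) → γ 0 = c →
      ‖deriv γ 0‖ ≤ C * ‖c - c₀‖ ^ σ := by
  have hLYA := Pool.Agent.Y674.CA.lya
  have hdR : (2 : ℝ) ≤ d := by exact_mod_cast hd
  have hd1 : 0 < (d : ℝ) - 1 := by linarith
  obtain ⟨⟨C₁, lam, hc⟩, -⟩ := hLYA d χ c₀ hd h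
  obtain ⟨t, ht⟩ : ∃ t : ℝ, t = σ * (d - 1) / d := ⟨_, rfl⟩
  have ht0 : 0 ≤ t := by rw [ht]; positivity
  have ht1 : t < 1 := by
    rw [lt_div_iff₀ hd1] at hσ
    rw [ht, div_lt_one (by positivity)]
    exact hσ
  obtain ⟨b, hb⟩ : ∃ b : ℝ, b = (1 - t) / 2 := ⟨_, rfl⟩
  have hb0 : 0 < b := by rw [hb]; linarith
  have hb1 : t * (1 + b) < 1 := by
    rw [hb]
    nlinarith
  have e2 : d * t / ((d : ℝ) - 1) = σ := by
    rw [ht]
    field_simp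
  obtain ⟨C₂, hC₂, hrec⟩ := rec_of_lya hLYA hd h hb0
  obtain ⟨C, hC, H⟩ := upper_uniform hd C₁ lam hC₂ hb0.le ht0 hb1
  rw [e2] at H
  exact ⟨C, hC, fun c hcM hcc => (H c₀ hc hrec c hcM hcc).2⟩

/-- **The size of the hyperbolic components of period `n` near `c₀`**, both bounds. -/
theorem size_law {d : ℕ} (hd : 2 ≤ d) {χ : ℝ} {c₀ : ℂ} (h : Lyap d χ c₀) {ε : ℝ} (hε : 0 < ε) :
    ∃ δ : ℝ, 0 < δ ∧ δ ≤ χ / 2 ∧ ∀ᶠ n : ℕ in atTop, ∀ c' : ℂ, P d n c' = 0 →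
      ‖c' - c₀‖ ≤ Real.exp (-((χ - δ) * n)) →
      (∀ c ∈ ball c' (Real.exp (-((χ * ((d : ℝ) / ((d : ℝ) - 1)) + ε) * n))),
        ∃ z : ℂ, N62a1eb23.IsAttractingCycle (f d c) n z) ∧
      ∀ γ : ℂ → ℂ, DifferentiableOn ℂ γ (ball 0 1) →
        (∀ t ∈ ball (0 : ℂ) 1, γ t ∈ N62a1eb23.multibrotSet d) → γ 0 = c' →
        ‖deriv γ 0‖ ≤ Real.exp (-((χ * ((d : ℝ) / ((d : ℝ) - 1)) - ε) * n)) := by
  have hχ : 0 < χ := h.1
  have hdR : (2 : ℝ) ≤ d := by exact_mod_cast hd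
  have hd1 : 0 < (d : ℝ) - 1 := by linarith
  obtain ⟨E, hE⟩ : ∃ E : ℝ, E = (d : ℝ) / ((d : ℝ) - 1) := ⟨_, rfl⟩
  have hE0 : 0 < E := by rw [hE]; positivity
  obtain ⟨δ₁, hδ₁, H₁⟩ := low_per hd h hε
  rw [← hE] at H₁ ⊢
  obtain ⟨σ, hσ⟩ : ∃ σ : ℝ, σ = max 0 (E - ε / (4 * χ)) := ⟨_, rfl⟩
  have hσ0 : 0 ≤ σ := by rw [hσ]; exact le_max_left _ _
  have hσ1 : σ < E := by
    rw [hσ]
    apply max_lt hE0
    have : 0 < ε / (4 * χ) := by positivity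
    linarith
  have hσ2 : E - ε / (4 * χ) ≤ σ := by rw [hσ]; exact le_max_right _ _
  obtain ⟨C, hC, HC⟩ := speed hd h hσ0 (by rw [← hE]; exact hσ1)
  obtain ⟨δ, hδ⟩ : ∃ δ : ℝ, δ = min δ₁ (min (χ / 2) (ε / (4 * E))) := ⟨_, rfl⟩
  have hδ0 : 0 < δ := by
    rw [hδ]
    exact lt_min hδ₁ (lt_min (by positivity) (by positivity))
  have hδa : δ ≤ δ₁ := by rw [hδ]; exact min_le_left _ _
  have hδb : δ ≤ χ / 2 := by rw [hδ]; exact (min_le_right _ _).trans (min_le_left _ _)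
  have hδc : δ ≤ ε / (4 * E) := by rw [hδ]; exact (min_le_right _ _).trans (min_le_right _ _)
  refine ⟨δ, hδ0, hδb, ?_⟩
  filter_upwards [H₁, ev_lin (show 0 < ε / 2 by positivity) (Real.log C), eventually_ge_atTop 1]
    with n hn hn2 hn1 c' hPc hcc
  have hn0 : (1 : ℝ) ≤ n := by exact_mod_cast hn1
  have hmem : c' ∈ N62a1eb23.multibrotSet d := by
    rw [Pool.Agent.H712R2.mem_multibrot_iff hd]
    exact bd_of_centre hd hn1 hPc
  have hne : c' ≠ c₀ := ne_of_lyap hd h hn1 hPc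
  refine ⟨hn c' hPc (hcc.trans ?_), ?_⟩
  · apply Real.exp_le_exp.mpr
    have : (χ - δ₁) * n ≤ (χ - δ) * n := by gcongr
    linarith
  · intro γ hγ hγM hγ0
    refine (HC c' hmem hne γ hγ hγM hγ0).trans ?_
    have h1 : ‖c' - c₀‖ ^ σ ≤ Real.exp (-((χ - δ) * n)) ^ σ :=
      Real.rpow_le_rpow (norm_nonneg _) hcc hσ0
    calc C * ‖c' - c₀‖ ^ σ ≤ Real.exp (Real.log C) * Real.exp (-((χ - δ) * n)) ^ σ := by
          rw [Real.exp_log hC]
          gcongr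
      _ = Real.exp (Real.log C + -((χ - δ) * n) * σ) := by rw [Real.exp_add, Real.exp_mul]
      _ ≤ _ := by
          apply Real.exp_le_exp.mpr
          have h2 : (χ - δ) * (E - ε / (4 * χ)) ≤ (χ - δ) * σ := by
            apply mul_le_mul_of_nonneg_left hσ2
            linarith
          have h3 : χ * E - ε / 2 ≤ (χ - δ) * (E - ε / (4 * χ)) := by
            have e1 : (χ - δ) * (E - ε / (4 * χ)) = χ * E - δ * E - ε / 4 + δ * ε / (4 * χ) := by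
              field_simp
              ring
            have e2 : δ * E ≤ ε / 4 := by
              calc δ * E ≤ ε / (4 * E) * E := by gcongr
                _ = ε / 4 := by field_simp
            have e3 : 0 ≤ δ * ε / (4 * χ) := by positivity
            rw [e1]
            linarith
          have h4 : (χ * E - ε / 2) * n ≤ (χ - δ) * σ * n := by
            gcongr
            exact h3.trans h2
          nlinarith

end Pool.Agent.N253.MS
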