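import Pool.Agent.Y298.CA.ScaAll

/-!
# The size of the hyperbolic components of period `n` near a parameter with a Lyapunov exponent

The lower bound: EVERY superattracting parameter `c'` of period `n` at distance at most
`exp (- (χ - δ) n)` from `c₀` is the centre of a disc of radius `exp (- (χ E + ε) n)`,
`E = d / (d - 1)`, of parameters with an attracting cycle of period `n`. The proof follows
`Pool.Agent.Y298.CA.lower`, which finds one superattracting parameter, of unspecified period, for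
every scale.
-/

set_option autoImplicit false

open Set Filter Metric MeasureTheory Topology

namespace Pool.Agent.N253.MS

open Pool.Agent.TH279.MD Pool.Agent.Y298.SH Pool.Agent.Y298.SH.CD Pool.Agent.Y298.CA
open Pool.Agent.H712R2 (P)
open scoped NNReal

/-- a disc of parameters with an attracting cycle of the period of the centre; the proof is that of
`Pool.Agent.Y287.CA.att` -/
theorem att_per {d n : ℕ} {c' : ℂ} {η ρ A D : ℝ} (hn : 1 ≤ n) (hP : P d n c' = 0)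
    (hη : 0 < η) (hρ : 0 < ρ) (hD : ∀ c ∈ ball c' η, ‖deriv (P d n) c‖ ≤ D)
    (hA : ∀ c ∈ ball c' η, ∀ x ∈ closedBall c (ρ ^ d), ‖deriv ((f d c)^[n - 1]) x‖ ≤ A)
    (h1 : 2 * D * η ≤ ρ) (h2 : 2 * d * A * ρ ^ (d - 1) ≤ 1) :
    ∀ c ∈ ball c' η, ∃ z : ℂ, N62a1eb23.IsAttractingCycle (f d c) n z := by
  intro c hc
  have hcc : ‖c - c'‖ < η := by rwa [mem_ball, dist_eq_norm] at hc
  have hD0 : 0 ≤ D := (norm_nonneg _).trans (hD c hc)
  have hA0 : 0 ≤ A := (norm_nonneg _).trans (hA c hc c (mem_closedBall_self (by positivity)))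
  have hPc : ‖P d n c‖ ≤ ρ / 2 := by
    have h3 := Convex.norm_image_sub_le_of_norm_deriv_le (f := P d n) (C := D)
      (fun x _ => (Pool.Agent.H713R2.differentiable_P d n) x) hD (convex_ball c' η)
      (mem_ball_self hη) hc
    rw [hP, sub_zero] at h3
    nlinarith
  set F : ℂ → ℂ := (f d c)^[n] with hF
  have hF0 : F 0 = P d n c := rfl
  have hder : ∀ z ∈ closedBall (0 : ℂ) ρ, ‖deriv F z‖ ≤ 1 / 2 := by
    intro z hz
    rw [mem_closedBall_zero_iff] at hz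
    obtain ⟨k, rfl⟩ : ∃ k, n = k + 1 := ⟨n - 1, by omega⟩
    rw [hF, deriv_iter_add, Function.iterate_one, deriv_f, norm_mul, norm_mul, norm_pow,
      Complex.norm_natCast]
    have h4 : ‖deriv ((f d c)^[k]) (f d c z)‖ ≤ A := by
      have h4' := hA c hc (f d c z)
      rw [Nat.add_sub_cancel] at h4'
      apply h4'
      rw [mem_closedBall, dist_eq_norm]
      show ‖z ^ d + c - c‖ ≤ ρ ^ d
      rw [add_sub_cancel_right, norm_pow]
      exact pow_le_pow_left₀ (norm_nonneg _) hz d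
    have h5 : ‖z‖ ^ (d - 1) ≤ ρ ^ (d - 1) := pow_le_pow_left₀ (norm_nonneg _) hz _
    calc ‖deriv ((f d c)^[k]) (f d c z)‖ * (d * ‖z‖ ^ (d - 1)) ≤ A * (d * ρ ^ (d - 1)) := by
          gcongr
      _ ≤ 1 / 2 := by linarith
  have hFd : Differentiable ℂ F := differentiable_fn d c n
  have hLip : ∀ z ∈ closedBall (0 : ℂ) ρ, ∀ w ∈ closedBall (0 : ℂ) ρ,
      ‖F z - F w‖ ≤ 1 / 2 * ‖z - w‖ := by
    intro z hz w hw
    exact Convex.norm_image_sub_le_of_norm_deriv_le (f := F) (C := 1 / 2)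
      (fun x _ => hFd x) hder (convex_closedBall 0 ρ) hw hz
  have hmaps : MapsTo F (closedBall (0 : ℂ) ρ) (closedBall (0 : ℂ) ρ) := by
    intro z hz
    have h3 := hLip z hz 0 (mem_closedBall_self hρ.le)
    rw [mem_closedBall_zero_iff] at hz ⊢
    rw [sub_zero] at h3
    have h4 : ‖F z‖ ≤ ‖F z - F 0‖ + ‖F 0‖ := by simpa using norm_add_le (F z - F 0) (F 0)
    rw [hF0] at h3 h4
    linarith
  have hcontr : ContractingWith (1 / 2 : ℝ≥0) (hmaps.restrict F _ _) := by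
    refine ⟨?_, ?_⟩
    · rw [← NNReal.coe_lt_coe]
      norm_num
    · apply LipschitzWith.of_dist_le_mul
      rintro ⟨z, hz⟩ ⟨w, hw⟩
      rw [Subtype.dist_eq, Subtype.dist_eq, dist_eq_norm, dist_eq_norm]
      have := hLip z hz w hw
      simpa using this
  obtain ⟨z, hz, hfix, -, -⟩ := hcontr.exists_fixedPoint' isClosed_closedBall.isComplete hmaps
    (mem_closedBall_self hρ.le : (0 : ℂ) ∈ closedBall (0 : ℂ) ρ) (edist_ne_top _ _)
  exact ⟨z, hn, hfix, hFd z, (hder z hz).trans_lt (by norm_num)⟩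

/-- **The size of the hyperbolic components, all periods and all centres.** -/
theorem core {d : ℕ} (hd : 2 ≤ d) {χ : ℝ} {c₀ : ℂ} (h : Lyap d χ c₀) {ε : ℝ} (hε : 0 < ε) :
    ∃ ε₁ r₀ : ℝ, 0 < ε₁ ∧ ε₁ ≤ 1 / 2 ∧ 0 < r₀ ∧ r₀ < 1 ∧ ∀ r : ℝ, 0 < r → r ≤ r₀ → ∀ N : ℕ,
      (∀ j < N, Pd d c₀ j < Real.exp ((1 + ε₁) * -Real.log r)) →
      ∀ n : ℕ, 1 ≤ n → n ≤ N + 1 → ∀ c' : ℂ, ‖c' - c₀‖ ≤ r / 4 → P d n c' = 0 →
      ∃ η : ℝ, 0 < η ∧ r ^ ((d : ℝ) / ((d : ℝ) - 1) + ε) ≤ η ∧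
        ∀ c ∈ ball c' η, ∃ z : ℂ, N62a1eb23.IsAttractingCycle (f d c) n z := by
  have hLYA := Pool.Agent.Y674.CA.lya
  have hTWO := Pool.Agent.Y100.CA.two
  have hPA := Pool.Agent.Y434.CA.pa
  have hdR : (2 : ℝ) ≤ d := by exact_mod_cast hd
  have hd1 : 0 < (d : ℝ) - 1 := by linarith
  have hd0 : 0 < (d : ℝ) := by linarith
  obtain ⟨⟨C₁, lam, hc⟩, hlya⟩ := hLYA d χ c₀ hd h
  have hχ : 0 < χ := h.1
  set L : ℝ := d * 3 ^ (d - 1) + 1 with hL
  have hL3 : (1 : ℝ) ≤ 3 ^ (d - 1) := one_le_pow₀ (by norm_num)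
  have hL2 : 2 ≤ L := by
    rw [hL]
    nlinarith
  have hL0 : 0 < L := by linarith
  have hlL : 0 < Real.log L := Real.log_pos (by linarith)
  set ε₃ : ℝ := ε / (4 * Real.log L) with hε₃
  have hε₃0 : 0 < ε₃ := by positivity
  set ε₁ : ℝ := min (1 / 2) (ε₃ * χ / 3) with hε₁
  have hε₁0 : 0 < ε₁ := lt_min (by norm_num) (by positivity)
  have hε₁h : ε₁ ≤ 1 / 2 := min_le_left _ _
  have hε₁3 : 3 * ε₁ / χ ≤ ε₃ := by
    have h1 : ε₁ ≤ ε₃ * χ / 3 := min_le_right _ _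
    rw [div_le_iff₀ hχ]
    linarith
  set ε₂ : ℝ := ε₁ * χ / 8 with hε₂
  have hε₂0 : 0 < ε₂ := by positivity
  have hε₂χ : ε₂ ≤ χ / 2 := by
    rw [hε₂]
    nlinarith
  obtain ⟨C₂, hC₂1, hC₂⟩ := hlya ε₂ hε₂0
  have hC₂0 : 0 < C₂ := by linarith
  have hlC₂ : 0 ≤ Real.log C₂ := Real.log_nonneg hC₂1
  set θ : ℝ := Real.exp ε₂ with hθ
  have hθ1 : 1 < θ := Real.one_lt_exp_iff.mpr hε₂0
  obtain ⟨B, Ca, hPC⟩ := hPA d C₁ lam θ hd hc.C1 hc.lam1 hθ1
  have hCa1 := hPC.Ca1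
  have hCa0 : 0 < Ca := by linarith
  have hB0 : 0 < B := by linarith [hPC.CaB]
  set C₃ : ℝ := 1 + 3 / χ * Real.log C₂ with hC₃
  have hC₃0 : 0 ≤ C₃ := by positivity
  set c₅ : ℝ := Real.log (12 * d ^ 2 * Ca) + C₃ * Real.log L with hc₅
  -- the threshold
  have hlin : ∀ (a b : ℝ), 0 < a → ∀ᶠ l : ℝ in atTop, b < a * l := by
    intro a b ha
    exact (tendsto_id.const_mul_atTop ha).eventually_gt_atTop b
  have hev : ∀ᶠ l : ℝ in atTop, Real.log (B * C₂) + ε₁ / 2 * Real.log C₂ < ε₁ / 2 * l ∧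
      d / (d - 1) * c₅ < ε / 2 * l ∧ 0 < 1 * l :=
    (hlin _ _ (by positivity)).and ((hlin _ _ (by positivity)).and (hlin _ _ one_pos))
  obtain ⟨l₀, hl₀⟩ := eventually_atTop.mp hev
  refine ⟨ε₁, Real.exp (-(max l₀ 1)), hε₁0, hε₁h, Real.exp_pos _, ?_, ?_⟩
  · rw [Real.exp_lt_one_iff]
    have := le_max_right l₀ 1
    linarith
  intro r hr0 hrr
  set l : ℝ := -Real.log r with hl
  have hrl : r = Real.exp (-l) := by rw [hl, neg_neg, Real.exp_log hr0]
  have hll₀ : l₀ ≤ l := by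
    have h1 : Real.log r ≤ -(max l₀ 1) := by
      rw [← Real.log_exp (-(max l₀ 1))]
      exact Real.log_le_log hr0 hrr
    have := le_max_left l₀ 1
    linarith
  obtain ⟨t1, t4, t5⟩ := hl₀ l hll₀
  have hl0 : 0 < l := by linarith
  have hr1 : r ≤ 1 := by
    rw [hrl]
    apply Real.exp_le_one_iff.mpr
    linarith
  intro N hN2 n hn1 hn2 c' hc' hPn
  -- unboundedness of the derivatives
  have hunb : ∀ X : ℝ, ∃ n, X ≤ Pd d c₀ n := by
    intro X
    obtain ⟨n, hn⟩ := pow_unbounded_of_one_lt (C₁ * X) hc.lam1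
    refine ⟨n, ?_⟩
    have h1 := hc.exp n
    have h2 : C₁ * X < C₁ * Pd d c₀ n := lt_of_lt_of_le hn h1
    have h3 : 0 < C₁ := by linarith [hc.C1]
    exact (lt_of_mul_lt_mul_left h2 h3.le).le
  obtain ⟨k', hk1, hk2'⟩ := first_ge (hunb (Real.exp ((1 - ε₁) * l)))
  obtain ⟨k, hk⟩ : ∃ k, k = min k' N := ⟨_, rfl⟩
  have hkN : k ≤ N := by rw [hk]; exact min_le_right _ _
  have hkk' : k ≤ k' := by rw [hk]; exact min_le_left _ _
  have hk2 : ∀ j < k, Pd d c₀ j < Real.exp ((1 - ε₁) * l) := fun j hj => hk2' j (by omega)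
  -- the upper bound of the derivatives up to `k`
  set G : ℝ := 2 * d * Real.exp l with hG
  have hel : 1 ≤ Real.exp l := Real.one_le_exp hl0.le
  have hG1 : 1 ≤ G := by rw [hG]; nlinarith
  have hG0 : 0 < G := by linarith
  have hPG' : ∀ j < k, Pd d c₀ j ≤ Real.exp l := by
    intro j hj
    refine (hk2 j hj).le.trans ?_
    apply Real.exp_le_exp.mpr
    nlinarith
  have hPG : ∀ j ≤ k, Pd d c₀ j ≤ G := by
    intro j hj
    rcases hj.lt_or_eq with h1 | h1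
    · have h2 := hPG' j h1
      rw [hG]
      nlinarith
    · rcases Nat.eq_zero_or_pos k with h0 | h0
      · rw [h1, h0, Pd_zero]
        exact hG1
      obtain ⟨i, hi⟩ : ∃ i, k = i + 1 := ⟨k - 1, by omega⟩
      rw [h1, hi, Pd_succ]
      have h2 := hPG' i (by omega)
      have h3 := hc.bd' i
      have h4 := (hc.Pd_pos i).le
      calc d * ‖zz d c₀ i‖ ^ (d - 1) * Pd d c₀ i ≤ d * 2 * Real.exp l := by gcongr
        _ = G := by rw [hG]; ring
  -- the passage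
  have hpass : ∀ j < k, B * θ ^ j * r * Pd d c₀ j ≤ ‖zz d c₀ j‖ := by
    intro j hj
    obtain ⟨g1, -, g3⟩ := hC₂ j
    have h1 := hk2 j hj
    have h2 : (χ - ε₂) * j ≤ Real.log C₂ + (1 - ε₁) * l := by
      have h3 : Real.exp ((χ - ε₂) * j) ≤ Real.exp (Real.log C₂ + (1 - ε₁) * l) := by
        rw [Real.exp_add, Real.exp_log hC₂0]
        exact g1.trans (by gcongr)
      exact Real.exp_le_exp.mp h3
    have h4 : χ / 2 * j ≤ Real.log C₂ + l := by
      have h5 : χ / 2 * j ≤ (χ - ε₂) * j := by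
        gcongr
        linarith
      nlinarith
    have h6 : 2 * ε₂ * j ≤ ε₁ / 2 * (Real.log C₂ + l) := by
      calc 2 * ε₂ * j = ε₁ / 2 * (χ / 2 * j) := by rw [hε₂]; ring
        _ ≤ _ := by gcongr
    have h7 : B * C₂ * Real.exp (2 * ε₂ * j) ≤ Real.exp (ε₁ * l) := by
      calc B * C₂ * Real.exp (2 * ε₂ * j) = Real.exp (Real.log (B * C₂) + 2 * ε₂ * j) := by
            rw [Real.exp_add, Real.exp_log (by positivity)]
        _ ≤ _ := by
            apply Real.exp_le_exp.mpr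
            linarith
    have h8 : θ ^ j = Real.exp (ε₂ * j) := by
      rw [hθ, ← Real.exp_nat_mul, mul_comm]
    have h9 : B * θ ^ j * r * Pd d c₀ j * (C₂ * Real.exp (ε₂ * j)) ≤ 1 := by
      calc B * θ ^ j * r * Pd d c₀ j * (C₂ * Real.exp (ε₂ * j))
          ≤ B * θ ^ j * r * Real.exp ((1 - ε₁) * l) * (C₂ * Real.exp (ε₂ * j)) := by gcongr
        _ = (B * C₂ * (Real.exp (ε₂ * j) * Real.exp (ε₂ * j))) *
            (Real.exp (-l) * Real.exp ((1 - ε₁) * l)) := by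
            rw [h8, hrl]
            ring
        _ = (B * C₂ * Real.exp (2 * ε₂ * j)) * Real.exp (-(ε₁ * l)) := by
            rw [← Real.exp_add, ← Real.exp_add]
            congr 2
            · congr 1
              ring
            · ring
        _ ≤ Real.exp (ε₁ * l) * Real.exp (-(ε₁ * l)) := by gcongr
        _ = 1 := by rw [← Real.exp_add]; simp
    have h10 : 0 < C₂ * Real.exp (ε₂ * j) := by positivity
    refine le_of_mul_le_mul_right ?_ h10
    linarith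
  -- the number of additional steps
  set m : ℕ := N - k with hm
  have hkm : k + m = N := by omega
  have hmle : (m : ℝ) ≤ C₃ + ε₃ * l := by
    rcases le_or_gt N k' with hNk | hNk
    · have h1 : m = 0 := by
        rw [hm, hk, min_eq_right hNk, Nat.sub_self]
      rw [h1, Nat.cast_zero]
      positivity
    have hkk : k = k' := by rw [hk, min_eq_left hNk.le]
    have h1 : (χ - ε₂) * ((N : ℝ) - 1) ≤ Real.log C₂ + (1 + ε₁) * l := by
      obtain ⟨i, hi⟩ : ∃ i, N = i + 1 := ⟨N - 1, by omega⟩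
      have h2 := hN2 i (by omega)
      obtain ⟨g1, -, -⟩ := hC₂ i
      have h3 : Real.exp ((χ - ε₂) * i) ≤ Real.exp (Real.log C₂ + (1 + ε₁) * l) := by
        rw [Real.exp_add, Real.exp_log hC₂0]
        exact g1.trans (by gcongr)
      have h4 := Real.exp_le_exp.mp h3
      rw [hi]
      push_cast
      rw [add_sub_cancel_right]
      exact h4
    have h2 : (1 - ε₁) * l - Real.log C₂ ≤ (χ + ε₂) * k := by
      obtain ⟨-, g2, -⟩ := hC₂ k
      have h3 : Real.exp ((1 - ε₁) * l) ≤ Real.exp (Real.log C₂ + (χ + ε₂) * k) := by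
        rw [Real.exp_add, Real.exp_log hC₂0, hkk]
        rw [hkk] at g2
        exact hk1.trans g2
      have h4 := Real.exp_le_exp.mp h3
      linarith
    have h3 := steps hχ hε₁0 hε₁h hε₂0 le_rfl hl0.le hlC₂ h1 h2
    have h4 : (m : ℝ) = (N : ℝ) - k := by
      rw [hm, Nat.cast_sub hkN]
    rw [h4]
    refine h3.trans ?_
    rw [hC₃]
    gcongr
  have hLm1 : 1 ≤ L ^ m := one_le_pow₀ (by linarith)
  have hLm0 : 0 < L ^ m := by linarith
  have hbd : ∀ j, ‖P d j c'‖ ≤ 2 := bd_of_centre hd hn1 hPn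
  -- the radii
  set A₀ : ℝ := 3 * Ca * G * L ^ m with hA₀
  set μ : ℝ := (((d - 1 : ℕ) : ℝ))⁻¹ with hμ
  set ρ : ℝ := (1 / (2 * d * A₀)) ^ μ with hρ
  set η : ℝ := ρ / (2 * A₀) with hη
  obtain ⟨-, hA₀1, hρ0, hρ1, hρp, hρd, hη0, hη1, hρd1, hsm, hA1, hA2⟩ :=
    radii hd hr0 hrl hl0 hG hCa1 hLm1 hA₀ hμ hρ hη
  have hA₀0 : 0 < A₀ := by linarith
  have htwo := hTWO d C₁ lam θ B Ca hd hPC c₀ hc r G k m hr0 hr1 hpass hPG c' hc' hbd η
    (ρ ^ d) hη0 (by linarith) (by positivity) hρd1 hsm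
  rw [← hL] at htwo
  refine ⟨η, hη0, ?_, ?_⟩
  · exact size_log hd hr0 (by rw [hl, neg_neg]) hl0 hε hG hCa1 (by linarith) hA₀ hμ hρ hη hε₃ hmle
      hc₅ t4
  · refine att_per hn1 hPn hη0 hρ0 (A := A₀) (D := A₀) ?_ ?_ ?_ ?_
    · intro c hcη
      obtain ⟨-, h2⟩ := htwo c hcη (n - 1) (by omega)
      rw [Nat.sub_add_cancel hn1] at h2
      exact h2.trans hA2
    · intro c hcη x hx
      obtain ⟨h1, -⟩ := htwo c hcη (n - 1) (by omega)
      exact (h1 x hx).trans hA1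
    · rw [hη]
      apply le_of_eq
      field_simp
    · rw [hρp]
      apply le_of_eq
      field_simp

/-- `b < a n` for large `n` -/
theorem ev_lin {a : ℝ} (ha : 0 < a) (b : ℝ) : ∀ᶠ n : ℕ in atTop, b < a * n := by
  have h1 : Tendsto (fun n : ℕ => a * (n : ℝ)) atTop atTop :=
    (tendsto_natCast_atTop_atTop).const_mul_atTop ha
  exact h1.eventually_gt_atTop b

/-- **Lower bound of the size of all components of period `n` near `c₀`.** -/
theorem low_per {d : ℕ} (hd : 2 ≤ d) {χ : ℝ} {c₀ : ℂ} (h : Lyap d χ c₀) {ε : ℝ} (hε : 0 < ε) :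
    ∃ δ : ℝ, 0 < δ ∧ ∀ᶠ n : ℕ in atTop, ∀ c' : ℂ, P d n c' = 0 →
      ‖c' - c₀‖ ≤ Real.exp (-((χ - δ) * n)) →
      ∀ c ∈ ball c' (Real.exp (-((χ * ((d : ℝ) / ((d : ℝ) - 1)) + ε) * n))),
        ∃ z : ℂ, N62a1eb23.IsAttractingCycle (f d c) n z := by
  have hχ : 0 < χ := h.1
  have hdR : (2 : ℝ) ≤ d := by exact_mod_cast hd
  have hd1 : 0 < (d : ℝ) - 1 := by linarith
  obtain ⟨E, hE⟩ : ∃ E : ℝ, E = (d : ℝ) / ((d : ℝ) - 1) := ⟨_, rfl⟩
  have hE0 : 0 < E := by rw [hE]; positivity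
  obtain ⟨ε₁, r₀, hε₁, hε₁h, hr₀, hr₀1, H⟩ := core hd h (ε := ε / χ) (by positivity)
  rw [← hE] at H ⊢
  obtain ⟨-, hlya⟩ := Pool.Agent.Y674.CA.lya d χ c₀ hd h
  obtain ⟨C₂, hC₂1, hC₂⟩ := hlya (ε₁ * χ / 8) (by positivity)
  have hC₂0 : 0 < C₂ := by linarith
  -- `r = exp (- (χ - 2 δ) n)`
  refine ⟨ε₁ * χ / 8, by positivity, ?_⟩
  have hb : 0 < χ - ε₁ * χ / 4 := by nlinarith
  filter_upwards [ev_lin hb (-Real.log r₀), ev_lin (show 0 < ε₁ * χ / 8 by positivity) (Real.log 4),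
    ev_lin (show 0 < ε₁ * χ / 8 by positivity) (Real.log C₂), eventually_ge_atTop 1]
    with n hn1 hn2 hn3 hn c' hPc hcc c hc
  have hn0 : (1 : ℝ) ≤ n := by exact_mod_cast hn
  obtain ⟨l, hl⟩ : ∃ l : ℝ, l = (χ - ε₁ * χ / 4) * n := ⟨_, rfl⟩
  have hl0 : 0 < l := by rw [hl]; positivity
  obtain ⟨r, hr⟩ : ∃ r : ℝ, r = Real.exp (-l) := ⟨_, rfl⟩
  have hr0 : 0 < r := by rw [hr]; exact Real.exp_pos _
  have hlr : -Real.log r = l := by rw [hr, Real.log_exp, neg_neg]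
  have hrr : r ≤ r₀ := by
    rw [hr, ← Real.exp_log hr₀]
    apply Real.exp_le_exp.mpr
    rw [hl]
    linarith
  obtain ⟨η, hη0, hη, Hη⟩ := H r hr0 hrr (n - 1) (by
    intro j hj
    obtain ⟨-, g2, -⟩ := hC₂ j
    refine g2.trans_lt ?_
    rw [← Real.exp_log hC₂0, ← Real.exp_add, hlr]
    apply Real.exp_lt_exp.mpr
    have hj' : (j : ℝ) ≤ n := by exact_mod_cast (by omega : j ≤ n)
    have h1 : (χ + ε₁ * χ / 8) * j ≤ (χ + ε₁ * χ / 8) * n := by gcongr
    have h2 : (χ + ε₁ * χ / 8) * n + ε₁ * χ / 8 * n ≤ (1 + ε₁) * l := by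
      rw [hl]
      have h3 : (1 + ε₁) * ((χ - ε₁ * χ / 4) * n) - ((χ + ε₁ * χ / 8) * n + ε₁ * χ / 8 * n) =
          (ε₁ * χ * n) * (1 / 2 - ε₁ / 4) := by ring
      have h4 : 0 ≤ (ε₁ * χ * n) * (1 / 2 - ε₁ / 4) := by
        apply mul_nonneg (by positivity)
        linarith
      linarith
    linarith) n hn (by omega) c' (by
      refine hcc.trans ?_
      rw [hr, ← Real.exp_log (show (0 : ℝ) < 4 by norm_num), ← Real.exp_sub]
      apply Real.exp_le_exp.mpr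
      rw [hl]
      have h1 : (χ - ε₁ * χ / 8) * n = (χ - ε₁ * χ / 4) * n + ε₁ * χ / 8 * n := by ring
      linarith) hPc
  apply Hη c
  refine ball_subset_ball ?_ hc
  refine le_trans ?_ hη
  rw [hr, ← Real.exp_mul]
  apply Real.exp_le_exp.mpr
  have h1 : (E + ε / χ) * l ≤ (χ * E + ε) * n := by
    have h2 : (χ * E + ε) * n = (E + ε / χ) * (χ * n) := by field_simp
    rw [h2]
    have h3 : l ≤ χ * n := by
      rw [hl]
      have : 0 ≤ ε₁ * χ / 4 * n := by positivity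
      linarith
    gcongr
  linarith

end Pool.Agent.N253.MS
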